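import Pool.Agent.MP_8d06cc_nt.HB.Sp
import Pool.Agent.MP_8d06cc_nt.AB.Spec

/-! Heights of algebraic elements. -/

set_option autoImplicit false

namespace Pool.Agent.MP_8d06cc_nt.HB

open Polynomial Submodule AB

noncomputable section

variable {E : Type} [Field E] [CharZero E]

theorem ht_poly {h : E → ENNReal} (H : Ht h) {σ : Type} [Fintype σ] (P : MvPolynomial σ ℚ)
    (s : σ → E) : h (MvPolynomial.aeval s P) ≤ ∑ i, P.degreeOf i * h (s i) := by
  set e := Fintype.equivFin σ
  have := H.poly _ (MvPolynomial.rename e P) (s ∘ e.symm)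
  rw [MvPolynomial.aeval_rename, ← e.sum_comp] at this
  simpa [Function.comp_assoc, MvPolynomial.degreeOf_rename_of_injective e.injective] using this

theorem ht_root {h : E → ENNReal} (H : Ht h) {R : E[X]} {r : E} {K : ℕ} {B : ENNReal}
    (hR : R ≠ 0) (hK : R.natDegree ≤ K) (hr : R.eval r = 0) (hc : ∀ i, h (R.coeff i) ≤ B) :
    h r ≤ 2 * K * B := by
  have hδ : 0 < R.natDegree := by
    by_contra h0
    have h0 : R.natDegree = 0 := by omega
    rw [eq_C_of_natDegree_eq_zero h0, eval_C] at hr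
    exact hR (by rw [eq_C_of_natDegree_eq_zero h0, hr, C_0])
  have hl : R.coeff R.natDegree ≠ 0 := leadingCoeff_ne_zero.2 hR
  have := H.root R.natDegree (fun i => R.coeff i * (R.coeff R.natDegree)⁻¹) r hδ (by
    rw [eval_eq_sum_range, Finset.sum_range_succ, Finset.sum_range] at hr
    apply mul_left_cancel₀ hl
    rw [mul_add, Finset.mul_sum, mul_zero, add_comm, ← hr]
    congr 1
    refine Finset.sum_congr rfl fun i _ => ?_
    field_simp)
  refine this.trans ?_
  calc ∑ i : Fin R.natDegree, h (R.coeff i * (R.coeff R.natDegree)⁻¹)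
      ≤ ∑ _i : Fin R.natDegree, (B + B) := Finset.sum_le_sum fun i _ =>
        (H.mul _ _).trans (add_le_add (hc _) (by rw [H.inv]; exact hc _))
    _ = 2 * R.natDegree * B := by simp; ring
    _ ≤ 2 * K * B := by gcongr

theorem ht_deg {h : E → ENNReal} (H : Ht h) {d D : ℕ} (t : Fin d → E)
    {P : MvPolynomial (Fin d) ℚ} (hP : P.totalDegree ≤ D) :
    h (MvPolynomial.aeval t P) ≤ D * ∑ i, h (t i) := by
  refine (H.poly _ P t).trans ?_
  rw [Finset.mul_sum]
  refine Finset.sum_le_sum fun i _ => ?_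
  gcongr
  exact (MvPolynomial.degreeOf_le_totalDegree P i).trans hP

theorem stmtH0 : StmtH0 := by
  intro E _ _ d t u hu
  obtain ⟨U, hU, hc, hx⟩ := Alg.poly hu
  obtain ⟨D, hD⟩ := unif (P := fun D y => ∃ P : MvPolynomial (Fin d) ℚ, P.totalDegree ≤ D ∧
      MvPolynomial.aeval t P = y) (fun _ => ⟨0, by simp, by simp⟩)
    (fun a b y hab ⟨P, h1, h2⟩ => ⟨P, h1.trans hab, h2⟩) U fun i => by
      have := hc i
      rw [Algebra.adjoin_range_eq_range_aeval] at this
      obtain ⟨P, hP⟩ := this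
      exact ⟨_, P, le_rfl, hP⟩
  refine ⟨2 * U.natDegree * D, fun h H => ?_⟩
  have := ht_root H hU le_rfl hx (B := D * ∑ i, h (t i)) fun i => by
    obtain ⟨P, h1, h2⟩ := hD i
    rw [← h2]; exact ht_deg H t h1
  simpa [mul_assoc] using this

end

end Pool.Agent.MP_8d06cc_nt.HB
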