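import Pool.Agent.MP_8d06cc_nt.HB.H0

/-! Comparison of heights by a dimension count. -/

set_option autoImplicit false

namespace Pool.Agent.MP_8d06cc_nt.HB

open Polynomial Submodule AB

noncomputable section

variable {E : Type} [Field E] [CharZero E]

theorem degreeOf_rename_zero {σ τ : Type} (f : σ → τ) (P : MvPolynomial σ ℚ) (j : τ)
    (hj : ∀ i, f i ≠ j) : (MvPolynomial.rename f P).degreeOf j = 0 := by
  classical
  by_contra h
  obtain ⟨i, -, hi⟩ := MvPolynomial.mem_vars_rename f P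
    (MvPolynomial.mem_vars_iff_degreeOf_ne_zero.2 h)
  exact hj i hi

theorem ht_bil {h : E → ENNReal} (H : Ht h) {d g B : ℕ} (s t : Fin d → E) (T : Fin d → ℕ)
    (Q P : Fin g → MvPolynomial (Fin d) ℚ) (hQ : ∀ a i, (Q a).degreeOf i ≤ T i)
    (hP : ∀ a, (P a).totalDegree ≤ B) :
    h (∑ a, MvPolynomial.aeval s (Q a) * MvPolynomial.aeval t (P a)) ≤
      ∑ i, T i * h (s i) + B * ∑ i, h (t i) := by
  have := ht_poly H (∑ a, MvPolynomial.rename Sum.inl (Q a) * MvPolynomial.rename Sum.inr (P a))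
    (Sum.elim s t)
  simp only [map_sum, map_mul, MvPolynomial.aeval_rename, Sum.elim_comp_inl, Sum.elim_comp_inr,
    Fintype.sum_sum_type, Sum.elim_inl, Sum.elim_inr] at this
  refine this.trans (add_le_add ?_ ?_)
  · refine Finset.sum_le_sum fun i _ => ?_
    gcongr
    refine (MvPolynomial.degreeOf_sum_le _ _ _).trans (Finset.sup_le fun a _ => ?_)
    refine (MvPolynomial.degreeOf_mul_le _ _ _).trans ?_
    rw [MvPolynomial.degreeOf_rename_of_injective Sum.inl_injective,
      degreeOf_rename_zero _ _ _ (by simp)]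
    exact hQ a i
  · rw [Finset.mul_sum]
    refine Finset.sum_le_sum fun i _ => ?_
    gcongr
    refine (MvPolynomial.degreeOf_sum_le _ _ _).trans (Finset.sup_le fun a _ => ?_)
    refine (MvPolynomial.degreeOf_mul_le _ _ _).trans ?_
    rw [MvPolynomial.degreeOf_rename_of_injective Sum.inr_injective,
      degreeOf_rename_zero _ _ _ (by simp), zero_add]
    exact (MvPolynomial.degreeOf_le_totalDegree _ i).trans (hP a)

/-- exponent vectors in a box -/
def ex {d : ℕ} {T : Fin d → ℕ} (α : ∀ i, Fin (T i)) : Fin d →₀ ℕ :=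
  Finsupp.equivFunOnFinite.symm fun i => (α i : ℕ)

theorem ex_inj {d : ℕ} {T : Fin d → ℕ} : Function.Injective (ex (T := T)) := by
  intro α β h
  funext i
  exact Fin.ext (congrFun (Finsupp.equivFunOnFinite.symm.injective h) i)

theorem sieg {h : E → ENNReal} (H : Ht h) {d g B K N : ℕ} (s t : Fin d → E) (T : Fin d → ℕ)
    (P : Fin g → MvPolynomial (Fin d) ℚ) (r : E) (M : Submodule ℚ E)
    (hI : ∀ Q : Fin g → MvPolynomial (Fin d) ℚ,
      ∑ a, MvPolynomial.aeval s (Q a) * MvPolynomial.aeval t (P a) = 0 → ∀ a, Q a = 0)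
    (hP : ∀ a, (P a).totalDegree ≤ B) (hM : Sp N M) (hN : N < K * (g * ∏ i, T i))
    (hv : ∀ k < K, ∀ a, ∀ α : ∀ i, Fin (T i),
      (∏ i, s i ^ (α i : ℕ)) * (r ^ k * MvPolynomial.aeval t (P a)) ∈ M) :
    h r ≤ 2 * K * (∑ i, T i * h (s i) + B * ∑ i, h (t i)) := by
  classical
  set v : Fin K × Fin g × (∀ i, Fin (T i)) → E := fun z =>
    (∏ i, s i ^ (z.2.2 i : ℕ)) * (r ^ (z.1 : ℕ) * MvPolynomial.aeval t (P z.2.1)) with hvd
  have hdep : ¬ LinearIndependent ℚ v := fun hi => by
    have := hM.card_le v (fun z => hv _ z.1.2 _ _) hi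
    simp at this
    omega
  obtain ⟨lam, hs, ⟨k0, a0, α0⟩, h0⟩ := Fintype.not_linearIndependent_iff.1 hdep
  set Q : Fin K → Fin g → MvPolynomial (Fin d) ℚ := fun k a =>
    ∑ α, MvPolynomial.monomial (ex α) (lam (k, a, α)) with hQ
  set A : Fin K → E := fun k =>
    ∑ a, MvPolynomial.aeval s (Q k a) * MvPolynomial.aeval t (P a) with hA
  have hA0 : A k0 ≠ 0 := fun h => by
    have := congrArg (MvPolynomial.coeff (ex α0)) (hI _ h a0)
    simp [hQ, MvPolynomial.coeff_sum, MvPolynomial.coeff_monomial, ex_inj.eq_iff] at this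
    exact h0 this
  have hAh : ∀ k, h (A k) ≤ ∑ i, T i * h (s i) + B * ∑ i, h (t i) := fun k => by
    refine ht_bil H s t T (Q k) P (fun a i => ?_) hP
    refine (MvPolynomial.degreeOf_sum_le _ _ _).trans (Finset.sup_le fun α _ => ?_)
    refine MvPolynomial.degreeOf_le_iff.2 fun m hm => ?_
    have := MvPolynomial.support_monomial_subset hm
    rw [Finset.mem_singleton] at this
    rw [this]
    exact (α i).2.le
  have hcoef : ∀ k : Fin K, (∑ k : Fin K, monomial (k : ℕ) (A k)).coeff k = A k := fun k => by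
    simp [finsetSum_coeff, coeff_monomial, Fin.val_inj]
  refine ht_root H (R := ∑ k : Fin K, monomial (k : ℕ) (A k)) (fun h => hA0 ?_) ?_ ?_ fun i => ?_
  · rw [← hcoef, h, coeff_zero]
  · exact natDegree_sum_le_of_forall_le _ _ fun k _ => (natDegree_monomial_le _).trans k.2.le
  · rw [← hs]
    simp only [eval_finsetSum, eval_monomial, hA, hQ, hvd, Fintype.sum_prod_type, map_sum,
      MvPolynomial.aeval_monomial, Finset.sum_mul]
    refine Finset.sum_congr rfl fun k _ => Finset.sum_congr rfl fun a _ =>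
      Finset.sum_congr rfl fun α _ => ?_
    rw [Finsupp.prod_fintype _ _ (by simp), Algebra.smul_def]
    simp only [ex, Finsupp.equivFunOnFinite_symm_apply_apply]
    ring
  · by_cases hi : i < K
    · exact (congrArg h (hcoef ⟨i, hi⟩)).le.trans (hAh _)
    · have : (∑ k : Fin K, monomial (k : ℕ) (A k)).coeff i = 0 := by
        rw [finsetSum_coeff]
        refine Finset.sum_eq_zero fun k _ => ?_
        rw [coeff_monomial, if_neg (by have := k.2; omega)]
      rw [this]
      have := H.poly 0 0 Fin.elim0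
      simp only [map_zero, Finset.univ_eq_empty, Finset.sum_empty] at this
      exact this.trans zero_le

theorem prod_mem_prod {ι : Type} (s : Finset ι) (x : ι → E) (V : ι → Submodule ℚ E)
    (h : ∀ i ∈ s, x i ∈ V i) : ∏ i ∈ s, x i ∈ ∏ i ∈ s, V i := by
  classical
  induction s using Finset.induction_on with
  | empty => simpa using one_le.1 (le_refl (1 : Submodule ℚ E))
  | insert a s ha ih =>
    rw [Finset.prod_insert ha, Finset.prod_insert ha]
    exact mul_mem_mul (h a (by simp)) (ih fun i hi => h i (by simp [hi]))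

theorem amb {d : ℕ} {t : Fin d → E} {G : Set E} (hG : G.Finite) (ha : ∀ g ∈ G, Alg t g) :
    ∃ C : ℕ, ∀ (D n : ℕ) (s : Fin d → E) (I : Finset (Fin d)), 0 < D → 0 < n →
      (∀ i ∈ I, Small G D (s i)) → (∀ i, i ∉ I → s i ∈ G) → Sp (C * (n * D) ^ d)
        ((∏ i, Xs (s i) ^ (if i ∈ I then n else n * D)) *
          span ℚ (insert 1 G) ^ (2 * (n * D))) := by
  obtain ⟨C, hC⟩ := dim_fil hG ha
  refine ⟨C * (9 * d + 2) ^ d * 6 ^ d, fun D n s I hD hn h1 h2 => ?_⟩
  have o := one_mem_gen G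
  have hb := (Bd.prod (span ℚ (insert 1 G)) Finset.univ
    (fun i => Xs (s i) ^ (if i ∈ I then n else n * D)) (fun _ => 9 * (n * D)) (fun _ => 6)
    fun i _ => by
      by_cases hi : i ∈ I
      · rw [if_pos hi]; exact bd_small hD (h1 i hi) n
      · rw [if_neg hi]
        exact (bd_pow _ (n * D)).mono o (pow_le_pow_left' (Xs_le o (mem_gen (h2 i hi))) _)
          (by omega) (by norm_num)).mul (bd_pow _ (2 * (n * D)))
  have hp : 0 < n * D := Nat.mul_pos hn hD
  refine (hb.sp (hC _ (by omega))).mono (le_of_eq ?_) le_rfl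
  have : ∑ _i : Fin d, 9 * (n * D) + 2 * (n * D) = (9 * d + 2) * (n * D) := by simp; ring
  rw [this, mul_pow]
  simp
  ring

theorem core {d : ℕ} {t : Fin d → E} {G : Set E} (hG : G.Finite) (ha : ∀ g ∈ G, Alg t g)
    (ht : ∀ i, t i ∈ G) {c : ℝ} (hc : 0 < c) : ∃ K : ℕ, 0 < K ∧ ∀ (h : E → ENNReal) (D g B m : ℕ)
    (s : Fin d → E) (I : Finset (Fin d)) (P : Fin g → MvPolynomial (Fin d) ℚ), Ht h → 0 < D →
    0 < m → (∀ Q : Fin g → MvPolynomial (Fin d) ℚ,
      ∑ a, MvPolynomial.aeval s (Q a) * MvPolynomial.aeval t (P a) = 0 → ∀ a, Q a = 0) →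
    (∀ a, (P a).totalDegree ≤ B) → (∀ a, MvPolynomial.aeval t (P a) ∈ span ℚ (insert 1 G) ^ m) →
    c * (D : ℝ) ^ I.card ≤ g → (∀ i ∈ I, Small G D (s i)) → (∀ i, i ∉ I → s i ∈ G) → ∀ j,
      m * ((D : ENNReal) * h (t j)) ≤ m * (2 * K * K * (∑ i ∈ I, h (s i) + D * ∑ i ∈ Iᶜ, h (s i)))
        + 2 * K * (B * ∑ i, h (t i)) := by
  obtain ⟨C, hC⟩ := amb hG ha
  obtain ⟨K, hK⟩ := exists_nat_gt (C / c)
  have hK0 : 0 < K := by
    have : (0 : ℝ) < K := lt_of_le_of_lt (by positivity) hK
    exact_mod_cast this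
  refine ⟨K, hK0, fun h D g B m s I P H hD hm hI hP hPm hg h1 h2 j => ?_⟩
  have o := one_mem_gen G
  have hn : 0 < K * m := Nat.mul_pos hK0 hm
  have hprod : (∏ i, if i ∈ I then K * m else K * m * D) * D ^ I.card = (K * m * D) ^ d := by
    have : D ^ I.card = ∏ i, if i ∈ I then D else 1 := by simp
    rw [this, ← Finset.prod_mul_distrib, Finset.prod_congr rfl (g := fun _ => K * m * D)]
    · simp
    · intro i _; split_ifs <;> simp
  have := sieg H (K := K) s t (fun i => if i ∈ I then K * m else K * m * D) P (t j ^ (m * D)) _ hI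
    hP (hC D (K * m) s I hD hn h1 h2) ?_ ?_
  · rw [H.pow] at this
    have e : ∑ i, ((if i ∈ I then K * m else K * m * D : ℕ) : ENNReal) * h (s i) =
        K * m * (∑ i ∈ I, h (s i) + D * ∑ i ∈ Iᶜ, h (s i)) := by
      rw [← Finset.sum_add_sum_compl I, mul_add, Finset.mul_sum, Finset.mul_sum, Finset.mul_sum]
      congr 1
      · exact Finset.sum_congr rfl fun i hi => by rw [if_pos hi]; push_cast; ring
      · exact Finset.sum_congr rfl fun i hi => by
          rw [if_neg (Finset.mem_compl.1 hi)]; push_cast; ring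
    rw [e] at this
    refine le_trans (le_of_eq ?_) (this.trans (le_of_eq ?_))
    · push_cast; ring
    · ring
  · rw [← hprod]
    set W := ∏ i, if i ∈ I then K * m else K * m * D with hW
    have hp : 0 < W := Finset.prod_pos fun i _ => by split_ifs <;> positivity
    have h3 : (C : ℝ) * D ^ I.card < K * g := by
      rw [div_lt_iff₀ hc] at hK
      have hd : (0 : ℝ) < (D : ℝ) ^ I.card := by positivity
      calc (C : ℝ) * D ^ I.card < K * c * D ^ I.card := by gcongr
        _ = K * (c * D ^ I.card) := by ring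
        _ ≤ K * g := by gcongr
    have h4 : C * D ^ I.card < K * g := by exact_mod_cast h3
    nlinarith
  · intro k hk a α
    refine mul_mem_mul (prod_mem_prod _ _ _ fun i _ => pow_mem_Xs _ (α i).2.le) ?_
    rw [two_mul, pow_add, ← pow_mul]
    refine mul_mem_mul (pow_mono' o ?_ (pow_mem_pow _ (mem_gen (ht j)) _)) (pow_mono' o ?_ (hPm a))
    · calc m * D * k ≤ m * D * K := by gcongr
        _ = K * m * D := by ring
    · calc m = 1 * m * 1 := by ring
        _ ≤ K * m * D := by gcongr <;> omega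

theorem le_of_mul {a b y : ENNReal} {m0 : ℕ} (hy : y ≠ ⊤)
    (h : ∀ m : ℕ, m0 < m → m * a ≤ m * b + y) : a ≤ b := by
  refine ENNReal.le_of_forall_pos_le_add fun ε hε _ => ?_
  obtain ⟨n, hn⟩ := ENNReal.exists_nat_mul_gt (a := (ε : ENNReal)) (by simpa using hε.ne') hy
  have h1 := h (n + m0 + 1) (by omega)
  have h2 : y ≤ ((n + m0 + 1 : ℕ) : ENNReal) * ε := hn.le.trans (by gcongr; omega)
  refine (ENNReal.mul_le_mul_iff_right (a := ((n + m0 + 1 : ℕ) : ENNReal))
    (by exact_mod_cast Nat.succ_ne_zero (n + m0)) (ENNReal.natCast_ne_top _)).1 ?_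
  rw [mul_add]
  exact h1.trans (by gcongr)

theorem stmtHB : StmtHB := by
  intro E _ _ d t G _ hG ha ht c hc
  obtain ⟨K, hK0, hK⟩ := core hG ha ht hc
  refine ⟨2 * K * K, fun h D g s I H hD hg ⟨P, hP⟩ hcg h1 h2 j => ?_⟩
  push_cast
  by_cases hX : ∑ i ∈ I, h (s i) + D * ∑ i ∈ Iᶜ, h (s i) = ⊤
  · rw [hX, ENNReal.mul_top (by simp [hK0.ne'])]; exact le_top
  have hfin : ∀ l, h (t l) ≠ ⊤ := by
    intro l hl
    have hd : (0 : ℝ) < (D : ℝ) ^ I.card := by positivity
    obtain ⟨K', -, hK'⟩ := core hG ha ht (inv_pos.2 hd)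
    have := hK' h D 1 0 1 s I (fun _ => 1) H hD one_pos (fun Q hQ a => by
        have := hP (Pi.single ⟨0, hg⟩ (Q 0)) (by
          rw [Finset.sum_eq_single ⟨0, hg⟩]
          · simp at hQ; simp [hQ]
          · intro b _ hb; simp [Pi.single_eq_of_ne hb]
          · simp) ⟨0, hg⟩
        rw [Subsingleton.elim a 0]
        simpa using this) (by simp) (by simpa using one_mem_gen G)
      (by rw [inv_mul_cancel₀ hd.ne']; simp) h1 h2 l
    rw [hl, ENNReal.mul_top (by simp [hD.ne'])] at this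
    simp only [Nat.cast_one, one_mul, Nat.cast_zero, zero_mul, mul_zero, add_zero,
      top_le_iff] at this
    exact ENNReal.mul_ne_top (by finiteness) hX this
  have hm : ∀ a, ∃ m, MvPolynomial.aeval t (P a) ∈ span ℚ (insert 1 G) ^ m := fun a => by
    refine exists_pow_of_adjoin (Algebra.adjoin_mono (s := Set.range t) ?_ ?_)
    · rintro _ ⟨i, rfl⟩; exact ht i
    · rw [Algebra.adjoin_range_eq_range_aeval]; exact ⟨_, rfl⟩
  choose m hm using hm
  have hY : ∑ i, h (t i) ≠ ⊤ := ENNReal.sum_ne_top.2 fun i _ => hfin i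
  refine le_of_mul (m0 := Finset.univ.sup m) ?_ fun n hn => hK h D g
    (Finset.univ.sup fun a => (P a).totalDegree) n s I P H hD (by omega) hP
    (fun a => Finset.le_sup (f := fun a => (P a).totalDegree) (Finset.mem_univ a))
    (fun a => pow_mono' (one_mem_gen G) ((Finset.le_sup (Finset.mem_univ a)).trans hn.le) (hm a))
    hcg h1 h2 j
  finiteness

end

end Pool.Agent.MP_8d06cc_nt.HB
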