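import Pool.Agent.MP_8d06cc_nt.AB.Defs

/-! Dimension bounds for filtered spaces. -/

set_option autoImplicit false

namespace Pool.Agent.MP_8d06cc_nt.HB

open Polynomial Submodule AB
open scoped Pointwise

noncomputable section

variable {E : Type} [Field E] [CharZero E]

/-- spanned by at most `n` elements -/
def Sp (n : ℕ) (V : Submodule ℚ E) : Prop := ∃ S : Finset E, S.card ≤ n ∧ V ≤ span ℚ (S : Set E)

theorem Sp.mono {n n' : ℕ} {V V' : Submodule ℚ E} (h : Sp n V) (hn : n ≤ n') (hV : V' ≤ V) :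
    Sp n' V' := by
  obtain ⟨S, h1, h2⟩ := h
  exact ⟨S, h1.trans hn, hV.trans h2⟩

theorem Sp.mul {n n' : ℕ} {V V' : Submodule ℚ E} (h : Sp n V) (h' : Sp n' V') :
    Sp (n * n') (V * V') := by
  classical
  obtain ⟨S, h1, h2⟩ := h
  obtain ⟨S', h1', h2'⟩ := h'
  refine ⟨S * S', Finset.card_mul_le.trans (Nat.mul_le_mul h1 h1'), ?_⟩
  rw [Finset.coe_mul, ← span_mul_span]
  exact mul_le_mul' h2 h2'

theorem sp_single (c : E) : Sp 1 (span ℚ {c}) := ⟨{c}, by simp, by simp⟩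

theorem sp_one : Sp 1 (1 : Submodule ℚ E) := by
  rw [one_eq_span]; exact sp_single 1

theorem Sp.prod {ι : Type} (s : Finset ι) (n : ι → ℕ) (V : ι → Submodule ℚ E)
    (h : ∀ i ∈ s, Sp (n i) (V i)) : Sp (∏ i ∈ s, n i) (∏ i ∈ s, V i) := by
  classical
  induction s using Finset.induction_on with
  | empty => simpa using sp_one
  | insert a s ha ih =>
    rw [Finset.prod_insert ha, Finset.prod_insert ha]
    exact (h a (by simp)).mul (ih fun i hi => h i (by simp [hi]))

theorem Sp.card_le {n : ℕ} {V : Submodule ℚ E} (h : Sp n V) {ι : Type} [Fintype ι] (v : ι → E)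
    (hv : ∀ i, v i ∈ V) (hi : LinearIndependent ℚ v) : Fintype.card ι ≤ n := by
  obtain ⟨S, h1, h2⟩ := h
  have := linearIndependent_le_span_aux' v hi (S : Set E) (by
    rintro _ ⟨i, rfl⟩; exact h2 (hv i))
  simp only [Finset.coe_sort_coe, Fintype.card_coe] at this
  exact this.trans h1

/-- the span of `1` and `x` -/
def Xs (x : E) : Submodule ℚ E := span ℚ {1, x}

/-- the span of the powers of `x` below `r` -/
def Pw (x : E) (r : ℕ) : Submodule ℚ E := span ℚ ((fun k => x ^ k) '' {k | k < r})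

theorem one_mem_Xs (x : E) : (1 : E) ∈ Xs x := subset_span (by simp)
theorem mem_Xs (x : E) : x ∈ Xs x := subset_span (by simp)

theorem Xs_le {x : E} {V : Submodule ℚ E} (h1 : (1 : E) ∈ V) (hx : x ∈ V) : Xs x ≤ V := by
  refine span_le.2 ?_
  rintro y (rfl | rfl)
  · exact h1
  · exact hx

theorem pow_mem_Pw (x : E) {r k : ℕ} (h : k < r) : x ^ k ∈ Pw x r := subset_span ⟨k, h, rfl⟩

theorem sp_Pw (x : E) (r : ℕ) : Sp r (Pw x r) := by
  classical
  refine ⟨(Finset.range r).image fun k => x ^ k, Finset.card_image_le.trans (by simp), ?_⟩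
  refine span_mono ?_
  rintro _ ⟨k, hk, rfl⟩
  simp only [Finset.coe_image, Finset.coe_range]
  exact ⟨k, hk, rfl⟩

theorem sp_Xs (x : E) : Sp 2 (Xs x) := by
  refine (sp_Pw x 2).mono le_rfl (Xs_le ?_ ?_)
  · simpa using pow_mem_Pw x (show 0 < 2 by norm_num)
  · simpa using pow_mem_Pw x (show 1 < 2 by norm_num)

theorem mul_span_le {S T : Set E} {V : Submodule ℚ E} (h : ∀ a ∈ S, ∀ b ∈ T, a * b ∈ V) :
    span ℚ S * span ℚ T ≤ V := by
  rw [span_mul_span, span_le]
  rintro _ ⟨a, ha, b, hb, rfl⟩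
  exact h a ha b hb

theorem Xs_pow_le (x : E) (n : ℕ) : Xs x ^ n ≤ Pw x (n + 1) := by
  induction n with
  | zero => simpa using pow_mem_Pw x (show 0 < 1 by norm_num)
  | succ n ih =>
    rw [pow_succ]
    refine (mul_le_mul' ih le_rfl).trans (mul_span_le ?_)
    rintro _ ⟨k, hk, rfl⟩ b (rfl | rfl)
    · simpa using pow_mem_Pw x (show k < n + 1 + 1 by simp at hk; omega)
    · simpa [pow_succ] using pow_mem_Pw b (show k + 1 < n + 1 + 1 by simp at hk; omega)

theorem pow_mono' {A : Submodule ℚ E} (h : (1 : E) ∈ A) {a b : ℕ} (hab : a ≤ b) : A ^ a ≤ A ^ b :=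
  pow_le_pow_right' (one_le.2 h) hab

theorem pow_mem_Xs (x : E) {k n : ℕ} (h : k ≤ n) : x ^ k ∈ Xs x ^ n :=
  pow_mono' (one_mem_Xs x) h (pow_mem_pow _ (mem_Xs x) k)

/-- After clearing a denominator, `M` lies in `A ^ F` times a space with `r` generators. -/
def Bd (A M : Submodule ℚ E) (F r : ℕ) : Prop :=
  ∃ c : E, c ≠ 0 ∧ ∃ V, Sp r V ∧ span ℚ {c} * M ≤ A ^ F * V

theorem Bd.mono {A M M' : Submodule ℚ E} {F F' r r' : ℕ} (h : Bd A M F r) (h1 : (1 : E) ∈ A)
    (hM : M' ≤ M) (hF : F ≤ F') (hr : r ≤ r') : Bd A M' F' r' := by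
  obtain ⟨c, hc, V, hV, h⟩ := h
  exact ⟨c, hc, V, hV.mono hr le_rfl, (mul_le_mul' le_rfl hM).trans
    (h.trans (mul_le_mul' (pow_mono' h1 hF) le_rfl))⟩

theorem Bd.mul {A M M' : Submodule ℚ E} {F F' r r' : ℕ} (h : Bd A M F r) (h' : Bd A M' F' r') :
    Bd A (M * M') (F + F') (r * r') := by
  obtain ⟨c, hc, V, hV, h⟩ := h
  obtain ⟨c', hc', V', hV', h'⟩ := h'
  refine ⟨c * c', mul_ne_zero hc hc', V * V', hV.mul hV', ?_⟩
  have e : span ℚ {c * c'} = span ℚ {c} * span ℚ ({c'} : Set E) := by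
    rw [span_mul_span, Set.singleton_mul_singleton]
  rw [e, pow_add, mul_mul_mul_comm, mul_mul_mul_comm (A ^ F)]
  exact mul_le_mul' h h'

theorem bd_pow (A : Submodule ℚ E) (F : ℕ) : Bd A (A ^ F) F 1 :=
  ⟨1, one_ne_zero, 1, sp_one, by rw [← one_eq_span, one_mul, mul_one]⟩

theorem bd_sp (A : Submodule ℚ E) {V : Submodule ℚ E} {r : ℕ} (h : Sp r V) : Bd A V 0 r :=
  ⟨1, one_ne_zero, V, h, by rw [← one_eq_span, pow_zero]⟩

theorem Bd.prod {ι : Type} (A : Submodule ℚ E) (s : Finset ι) (M : ι → Submodule ℚ E)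
    (F r : ι → ℕ) (h : ∀ i ∈ s, Bd A (M i) (F i) (r i)) :
    Bd A (∏ i ∈ s, M i) (∑ i ∈ s, F i) (∏ i ∈ s, r i) := by
  classical
  induction s using Finset.induction_on with
  | empty => simpa using bd_sp A sp_one
  | insert a s ha ih =>
    rw [Finset.prod_insert ha, Finset.prod_insert ha, Finset.sum_insert ha]
    exact (h a (by simp)).mul (ih fun i hi => h i (by simp [hi]))

theorem Bd.sp {A M : Submodule ℚ E} {F r n : ℕ} (h : Bd A M F r) (hA : Sp n (A ^ F)) :
    Sp (n * r) M := by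
  obtain ⟨c, hc, V, hV, h⟩ := h
  have := (sp_single c⁻¹).mul ((hA.mul hV).mono le_rfl h)
  rwa [one_mul, ← mul_assoc, span_mul_span, Set.singleton_mul_singleton, inv_mul_cancel₀ hc,
    ← one_eq_span, one_mul] at this

/-- powers of a root of a polynomial with coefficients in `A ^ D` -/
theorem bd_root {A : Submodule ℚ E} {D r : ℕ} {U : E[X]} {x : E} (hU : U ≠ 0)
    (hr : U.natDegree ≤ r) (hc : ∀ i, U.coeff i ∈ A ^ D) (hx : U.eval x = 0) (n : ℕ) :
    Bd A (Xs x ^ n) (n * D) r := by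
  have hδ : 0 < U.natDegree := by
    by_contra h0
    have h0 : U.natDegree = 0 := by omega
    rw [eq_C_of_natDegree_eq_zero h0, eval_C] at hx
    exact hU (by rw [eq_C_of_natDegree_eq_zero h0, hx, C_0])
  set c := U.leadingCoeff with hcd
  set V := Pw x U.natDegree with hV
  have key : span ℚ {c} * Xs x * V ≤ A ^ D * V := by
    rw [mul_assoc]
    have : Xs x * V ≤ Pw x (U.natDegree + 1) := by
      refine mul_span_le ?_
      rintro b (rfl | rfl) _ ⟨k, hk, rfl⟩
      · simpa using pow_mem_Pw x (show k < U.natDegree + 1 by simp at hk; omega)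
      · simpa [pow_succ'] using pow_mem_Pw b (show k + 1 < U.natDegree + 1 by simp at hk; omega)
    refine (mul_le_mul' le_rfl this).trans (mul_span_le ?_)
    rintro _ rfl _ ⟨k, hk, rfl⟩
    by_cases hk' : k < U.natDegree
    · exact mul_mem_mul (hc _) (pow_mem_Pw x hk')
    · have hk2 : k = U.natDegree := by simp at hk; omega
      rw [eval_eq_sum_range, Finset.sum_range_succ] at hx
      have : c * x ^ k = -∑ i ∈ Finset.range U.natDegree, U.coeff i * x ^ i := by
        rw [hk2, hcd, leadingCoeff]; linear_combination hx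
      show c * x ^ k ∈ _
      rw [this]
      exact neg_mem (sum_mem fun i hi => mul_mem_mul (hc _) (pow_mem_Pw x (by simpa using hi)))
  have ind : ∀ n : ℕ, (span ℚ {c} * Xs x) ^ n * V ≤ A ^ (n * D) * V := by
    intro n
    induction n with
    | zero => simp
    | succ n ih =>
      calc (span ℚ {c} * Xs x) ^ (n + 1) * V
          = (span ℚ {c} * Xs x) * ((span ℚ {c} * Xs x) ^ n * V) := by ring
        _ ≤ (span ℚ {c} * Xs x) * (A ^ (n * D) * V) := mul_le_mul' le_rfl ih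
        _ = A ^ (n * D) * (span ℚ {c} * Xs x * V) := by ring
        _ ≤ A ^ (n * D) * (A ^ D * V) := mul_le_mul' le_rfl key
        _ = A ^ ((n + 1) * D) * V := by ring
  refine ⟨c ^ n, pow_ne_zero _ (leadingCoeff_ne_zero.2 hU), V, (sp_Pw _ _).mono hr le_rfl, ?_⟩
  refine le_trans ?_ (ind n)
  have h1 : (1 : Submodule ℚ E) ≤ V := one_le.2 (by simpa using pow_mem_Pw x hδ)
  rw [mul_pow, span_pow, Set.singleton_pow]
  exact le_mul_of_one_le_right' h1

theorem one_mem_gen (G : Set E) : (1 : E) ∈ span ℚ (insert 1 G) := subset_span (by simp)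

theorem mem_gen {G : Set E} {g : E} (h : g ∈ G) : g ∈ span ℚ (insert 1 G) :=
  subset_span (by simp [h])

theorem bd_small {G : Set E} {D : ℕ} {u : E} (hD : 0 < D) (h : Small G D u) (n : ℕ) :
    Bd (span ℚ (insert 1 G)) (Xs u ^ n) (9 * (n * D)) 6 := by
  obtain ⟨x, U, hU, hr, hc, hx, h⟩ := h
  have h1 := one_mem_gen G
  set A := span ℚ (insert 1 G) with hA
  rcases h with rfl | ⟨p, hp, hpc, hu⟩
  · exact (bd_root hU hr hc hx n).mono h1 le_rfl (by omega) (by norm_num)
  · have o1 : (1 : E) ∈ A * Xs x ^ 8 := by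
      simpa using mul_mem_mul h1 (pow_mem_Xs x (show 0 ≤ 8 by norm_num))
    have o2 : u * u ∈ A * Xs x ^ 8 := by
      rw [← pow_two, hu, eval_eq_sum_range]
      refine sum_mem fun i hi => mul_mem_mul (by simpa [Fil] using hpc i) (pow_mem_Xs x ?_)
      simp at hi; omega
    have key : Xs u * Xs u ≤ Xs u * (A * Xs x ^ 8) := by
      refine mul_span_le ?_
      rintro a (rfl | rfl) b (rfl | rfl)
      · exact mul_mem_mul (one_mem_Xs u) o1
      · simpa using mul_mem_mul (mem_Xs b) o1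
      · exact mul_mem_mul (mem_Xs a) o1
      · simpa using mul_mem_mul (one_mem_Xs b) o2
    have ind : ∀ n : ℕ, Xs u ^ n ≤ Xs u * (A * Xs x ^ 8) ^ n := by
      intro n
      induction n with
      | zero => simpa using one_mem_Xs u
      | succ n ih =>
        calc Xs u ^ (n + 1) = Xs u * Xs u ^ n := by ring
          _ ≤ Xs u * (Xs u * (A * Xs x ^ 8) ^ n) := mul_le_mul' le_rfl ih
          _ = (Xs u * Xs u) * (A * Xs x ^ 8) ^ n := by ring
          _ ≤ (Xs u * (A * Xs x ^ 8)) * (A * Xs x ^ 8) ^ n := mul_le_mul' key le_rfl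
          _ = Xs u * (A * Xs x ^ 8) ^ (n + 1) := by ring
    have := (bd_sp A (sp_Xs u)).mul ((bd_pow A n).mul (bd_root hU hr hc hx (8 * n)))
    refine this.mono h1 ?_ (by nlinarith) (by norm_num)
    refine (ind n).trans (le_of_eq ?_)
    rw [mul_pow, ← pow_mul]

theorem gen_le_prod {ι : Type} (s : Finset ι) (u : ι → E) :
    span ℚ (insert 1 (u '' (s : Set ι))) ≤ ∏ i ∈ s, Xs (u i) := by
  classical
  have h1 : ∀ s : Finset ι, (1 : Submodule ℚ E) ≤ ∏ i ∈ s, Xs (u i) := fun s =>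
    Finset.one_le_prod' fun i _ => one_le.2 (one_mem_Xs _)
  refine span_le.2 ?_
  rintro y (rfl | ⟨i, hi, rfl⟩)
  · exact one_le.1 (h1 s)
  · rw [← Finset.mul_prod_erase s _ hi]
    simpa using mul_mem_mul (mem_Xs (u i)) (one_le.1 (h1 (s.erase i)))

theorem exists_pow_of_adjoin {G : Set E} {y : E} (h : y ∈ Algebra.adjoin ℚ G) :
    ∃ D, y ∈ span ℚ (insert 1 G) ^ D := by
  have h1 := one_mem_gen G
  induction h using Algebra.adjoin_induction with
  | mem x hx => exact ⟨1, by simpa using mem_gen hx⟩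
  | algebraMap r => exact ⟨0, by rw [pow_zero]; exact algebraMap_mem r⟩
  | add x y _ _ hx hy =>
    obtain ⟨a, ha⟩ := hx
    obtain ⟨b, hb⟩ := hy
    exact ⟨a + b, add_mem (pow_mono' h1 (by omega) ha) (pow_mono' h1 (by omega) hb)⟩
  | mul x y _ _ hx hy =>
    obtain ⟨a, ha⟩ := hx
    obtain ⟨b, hb⟩ := hy
    exact ⟨a + b, by rw [pow_add]; exact mul_mem_mul ha hb⟩

theorem Alg.poly {d : ℕ} {t : Fin d → E} {u : E} (h : Alg t u) : ∃ U : E[X], U ≠ 0 ∧
    (∀ i, U.coeff i ∈ Algebra.adjoin ℚ (Set.range t)) ∧ U.eval u = 0 := by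
  obtain ⟨p, hp, hu⟩ := IntermediateField.isAlgebraic_adjoin_iff.1 h
  refine ⟨p.map (algebraMap _ E), ?_, fun i => ?_, ?_⟩
  · exact (Polynomial.map_ne_zero_iff Subtype.val_injective).2 hp
  · rw [coeff_map]; exact (p.coeff i).2
  · rwa [eval_map_algebraMap]

omit [CharZero E] in
theorem unif {P : ℕ → E → Prop} (h0 : ∀ D, P D 0) (hm : ∀ a b y, a ≤ b → P a y → P b y)
    (U : E[X]) (h : ∀ i, ∃ D, P D (U.coeff i)) : ∃ D, ∀ i, P D (U.coeff i) := by
  choose D hD using h
  refine ⟨U.support.sup D, fun i => ?_⟩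
  by_cases hi : i ∈ U.support
  · exact hm _ _ _ (Finset.le_sup hi) (hD i)
  · rw [notMem_support_iff.1 hi]; exact h0 _

/-- the Hilbert function grows at most like `T ^ d` -/
theorem dim_fil {d : ℕ} {t : Fin d → E} {G : Set E} (hG : G.Finite) (ha : ∀ g ∈ G, Alg t g) :
    ∃ C : ℕ, ∀ T : ℕ, 0 < T → Sp (C * T ^ d) (span ℚ (insert 1 G) ^ T) := by
  classical
  set A := span ℚ (insert 1 (Set.range t)) with hA
  have h1 : (1 : E) ∈ A := one_mem_gen _
  have hb : ∀ g : E, ∃ D r : ℕ, g ∈ G → ∀ n, Bd A (Xs g ^ n) (n * D) r := by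
    intro g
    by_cases hg : g ∈ G
    · obtain ⟨U, hU, hc, hx⟩ := Alg.poly (ha g hg)
      obtain ⟨D, hD⟩ := unif (P := fun D y => y ∈ A ^ D) (fun _ => zero_mem _)
        (fun a b y hab h => pow_mono' h1 hab h) U fun i => exists_pow_of_adjoin (hc i)
      exact ⟨D, U.natDegree, fun _ n => bd_root hU le_rfl hD hx n⟩
    · exact ⟨0, 0, fun h => absurd h hg⟩
  choose D r hb using hb
  have hA' : ∀ F, Sp ((F + 1) ^ d) (A ^ F) := by
    intro F
    have h2 : A ≤ ∏ i, Xs (t i) := by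
      simpa [hA] using gen_le_prod Finset.univ t
    have := Sp.prod Finset.univ (fun _ : Fin d => F + 1) (fun i => Xs (t i) ^ F)
      fun i _ => (sp_Pw (t i) (F + 1)).mono le_rfl (Xs_pow_le _ _)
    refine this.mono (by simp) ?_
    rw [Finset.prod_pow]
    exact pow_le_pow_left' h2 F
  set S := hG.toFinset with hS
  refine ⟨(∑ g ∈ S, D g + 1) ^ d * ∏ g ∈ S, r g, fun T hT => ?_⟩
  have h3 := (Bd.prod A S (fun g => Xs g ^ T) (fun g => T * D g) r
    fun g hg => hb g (by simpa [hS] using hg) T).sp (hA' _)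
  refine h3.mono ?_ ?_
  · rw [← Finset.mul_sum, mul_right_comm, ← mul_pow]
    refine Nat.mul_le_mul_right _ (Nat.pow_le_pow_left ?_ _)
    nlinarith
  · rw [Finset.prod_pow]
    refine pow_le_pow_left' ?_ T
    simpa [hS] using gen_le_prod S id

end

end Pool.Agent.MP_8d06cc_nt.HB
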